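import Pool.Agent.V7.Defs

/-!
# V7, NUM: the numbers `bb`

`bb_vand` (one more block of free variables), `bb_zero`, `bb_self`.
-/

set_option autoImplicit false

namespace Pool.Agent.V7

open Finset

/-- Vandermonde for `multichoose`. -/
theorem mc_vand (n c k : ℕ) :
    (n + c).multichoose k = ∑ l ∈ range (k + 1), c.multichoose l * n.multichoose (k - l) := by
  induction c generalizing k with
  | zero =>
    rw [sum_range_succ']
    have h1 : ∑ l ∈ range k, Nat.multichoose 0 (l + 1) * n.multichoose (k - (l + 1)) = 0 :=
      sum_eq_zero fun l _ => by rw [Nat.multichoose_zero_succ, zero_mul]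
    rw [h1, Nat.multichoose_zero_right, zero_add, one_mul, Nat.add_zero, Nat.sub_zero]
  | succ c ihc =>
    induction k with
    | zero => simp
    | succ k ihk =>
      have h1 : (n + (c + 1)).multichoose (k + 1) =
          (n + c).multichoose (k + 1) + (n + (c + 1)).multichoose k := by
        rw [← add_assoc, Nat.multichoose_succ_succ]
      rw [h1, ihc (k + 1), ihk, sum_range_succ', sum_range_succ' _ (k + 1)]
      simp only [Nat.multichoose_zero_right, one_mul, Nat.sub_zero]
      have h2 : ∀ l ∈ range (k + 1), (c + 1).multichoose (l + 1) * n.multichoose (k + 1 - (l + 1)) =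
          c.multichoose (l + 1) * n.multichoose (k + 1 - (l + 1)) +
            (c + 1).multichoose l * n.multichoose (k - l) := by
        intro l _
        rw [Nat.multichoose_succ_succ, add_mul, Nat.add_sub_add_right]
      rw [sum_congr rfl h2, sum_add_distrib]
      ring

/-- NUM-A1. -/
theorem bb_vand (c k j n : ℕ) (h : j * c ≤ n) :
    bb c k j (n + c) = ∑ l ∈ range (k + 1), c.multichoose l * bb c (k - l) j n := by
  induction j generalizing n k with
  | zero => exact mc_vand n c k
  | succ j ih =>
    have h1 : j * c + c ≤ n := by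
      rw [add_mul, one_mul] at h
      exact h
    obtain ⟨n, rfl⟩ : ∃ n', n = n' + c := ⟨n - c, by omega⟩
    have h2 : j * c ≤ n := by omega
    have h3 : ∀ k, bb c k j n ≤ bb c k j (n + c) := by
      intro k
      rw [ih k n h2, sum_range_succ']
      simp
    show bb c k j (n + c + c) - bb c k j (n + c + c - c) =
      ∑ l ∈ range (k + 1), c.multichoose l * (bb c (k - l) j (n + c) - bb c (k - l) j (n + c - c))
    rw [Nat.add_sub_cancel, Nat.add_sub_cancel, ih k (n + c) (by omega)]
    conv_lhs => rw [ih k n h2]
    have h4 : ∑ l ∈ range (k + 1), c.multichoose l * bb c (k - l) j (n + c) =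
        ∑ l ∈ range (k + 1), c.multichoose l * (bb c (k - l) j (n + c) - bb c (k - l) j n) +
          ∑ l ∈ range (k + 1), c.multichoose l * bb c (k - l) j n := by
      rw [← sum_add_distrib]
      refine sum_congr rfl fun l _ => ?_
      rw [← mul_add, Nat.sub_add_cancel (h3 (k - l))]
    rw [h4, Nat.add_sub_cancel]

/-- The monomials which meet one more block, by their degree in this block. -/
theorem bb_succ_sum (c k j n : ℕ) (h : (j + 1) * c ≤ n) :
    bb c k (j + 1) n = ∑ l ∈ range k, c.multichoose (l + 1) * bb c (k - (l + 1)) j (n - c) := by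
  have h1 : j * c + c ≤ n := by
    rw [add_mul, one_mul] at h
    exact h
  obtain ⟨n, rfl⟩ : ∃ n', n = n' + c := ⟨n - c, by omega⟩
  show bb c k j (n + c) - bb c k j (n + c - c) = _
  rw [Nat.add_sub_cancel, bb_vand c k j n (by omega), sum_range_succ']
  simp

/-- NUM-A3. -/
theorem bb_zero (c k j n : ℕ) (h : j * c ≤ n) (hk : k < j) : bb c k j n = 0 := by
  induction j generalizing n k with
  | zero => exact absurd hk (Nat.not_lt_zero k)
  | succ j ih =>
    rw [bb_succ_sum c k j n h]
    refine sum_eq_zero fun l hl => ?_
    rw [mem_range] at hl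
    have h1 : j * c + c ≤ n := by
      rw [add_mul, one_mul] at h
      exact h
    rw [ih (k - (l + 1)) (n - c) (by omega) (by omega), mul_zero]

/-- NUM-A4. -/
theorem bb_self (c k n : ℕ) (h : k * c ≤ n) : bb c k k n = c ^ k := by
  induction k generalizing n with
  | zero => exact Nat.multichoose_zero_right n
  | succ k ih =>
    have h1 : k * c + c ≤ n := by
      rw [add_mul, one_mul] at h
      exact h
    rw [bb_succ_sum c (k + 1) k n h, sum_range_succ']
    have h2 : ∑ l ∈ range k, c.multichoose (l + 1 + 1) * bb c (k + 1 - (l + 1 + 1)) k (n - c) = 0 := by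
      refine sum_eq_zero fun l hl => ?_
      rw [mem_range] at hl
      rw [bb_zero c (k + 1 - (l + 1 + 1)) k (n - c) (by omega) (by omega), mul_zero]
    rw [h2, zero_add]
    show c.multichoose 1 * bb c (k + 1 - 1) k (n - c) = c ^ (k + 1)
    rw [Nat.add_sub_cancel, ih (n - c) (by omega), Nat.multichoose_one_right, pow_succ, mul_comm]

end Pool.Agent.V7
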