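import Pool.Agent.V7.Num.BB

/-!
# V7, NUM: the asymptotic size of the numbers `bb`
-/

set_option autoImplicit false

namespace Pool.Agent.V7

open Finset Polynomial

/-- The polynomials with the values `bb`. -/
private noncomputable def asymP (c k : ℕ) : ℕ → ℝ[X]
  | 0 => C (1 / (k.factorial : ℝ)) * ascPochhammer ℝ k
  | j + 1 => asymP c k j - (asymP c k j).comp (X - C (c : ℝ))

private theorem asym_coeff_comp (c : ℝ) (p : ℝ[X]) (D : ℕ) (hp : p.natDegree ≤ D) (m : ℕ) :
    (p.comp (X - C c)).coeff m =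
      ∑ i ∈ range (D + 1), p.coeff i * ((-c) ^ (i - m) * (i.choose m : ℝ)) := by
  rw [comp_eq_sum_left, p.sum_over_range' _ (D + 1) (by omega), finsetSum_coeff]
  · refine sum_congr rfl fun i _ => ?_
    rw [coeff_C_mul, sub_eq_add_neg, ← C_neg, coeff_X_add_C_pow]
  · intro i
    rw [C_0, zero_mul]

private theorem asym_step (c : ℝ) (p : ℝ[X]) (D : ℕ) (hp : p.natDegree ≤ D + 1) :
    (p - p.comp (X - C c)).natDegree ≤ D ∧
      (p - p.comp (X - C c)).coeff D = c * (D + 1) * p.coeff (D + 1) := by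
  constructor
  · rw [natDegree_le_iff_coeff_eq_zero]
    intro N hN
    rw [coeff_sub, asym_coeff_comp c p (D + 1) hp]
    rcases Nat.lt_or_ge (D + 1) N with h | h
    · rw [coeff_eq_zero_of_natDegree_lt (lt_of_le_of_lt hp h), zero_sub, neg_eq_zero]
      refine sum_eq_zero fun i hi => ?_
      rw [mem_range] at hi
      rw [Nat.choose_eq_zero_of_lt (by omega), Nat.cast_zero, mul_zero, mul_zero]
    · obtain rfl : N = D + 1 := by omega
      rw [sum_range_succ, Nat.sub_self, pow_zero, Nat.choose_self, Nat.cast_one, mul_one, mul_one]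
      have h1 : ∑ i ∈ range (D + 1), p.coeff i * ((-c) ^ (i - (D + 1)) *
          (i.choose (D + 1) : ℝ)) = 0 := by
        refine sum_eq_zero fun i hi => ?_
        rw [mem_range] at hi
        rw [Nat.choose_eq_zero_of_lt hi, Nat.cast_zero, mul_zero, mul_zero]
      rw [h1]
      ring
  · rw [coeff_sub, asym_coeff_comp c p (D + 1) hp, sum_range_succ, sum_range_succ]
    have h1 : ∑ i ∈ range D, p.coeff i * ((-c) ^ (i - D) * (i.choose D : ℝ)) = 0 := by
      refine sum_eq_zero fun i hi => ?_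
      rw [mem_range] at hi
      rw [Nat.choose_eq_zero_of_lt hi, Nat.cast_zero, mul_zero, mul_zero]
    rw [h1, Nat.sub_self, pow_zero, Nat.choose_self, Nat.cast_one, Nat.add_sub_cancel_left, pow_one,
      Nat.choose_succ_self_right]
    push_cast
    ring

private theorem asymP_eval (c k j n : ℕ) (h : j * c ≤ n) :
    (asymP c k j).eval (n : ℝ) = (bb c k j n : ℝ) := by
  induction j generalizing n with
  | zero =>
    show (C (1 / (k.factorial : ℝ)) * ascPochhammer ℝ k).eval (n : ℝ) = (n.multichoose k : ℝ)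
    rw [eval_mul, eval_C, ascPochhammer_nat_eq_natCast_ascFactorial]
    have h1 : n.ascFactorial k = k.factorial * n.multichoose k := by
      rw [Nat.multichoose_eq, Nat.ascFactorial_eq_factorial_mul_choose']
    rw [h1, Nat.cast_mul]
    have h2 : (k.factorial : ℝ) ≠ 0 := by exact_mod_cast k.factorial_ne_zero
    field_simp
  | succ j ih =>
    have h1 : j * c + c ≤ n := by
      rw [add_mul, one_mul] at h
      exact h
    obtain ⟨n, rfl⟩ : ∃ n', n = n' + c := ⟨n - c, by omega⟩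
    have h2 : j * c ≤ n := by omega
    have h3 : bb c k j n ≤ bb c k j (n + c) := by
      rw [bb_vand c k j n h2, sum_range_succ']
      simp
    show (asymP c k j - (asymP c k j).comp (X - C (c : ℝ))).eval ((n + c : ℕ) : ℝ) =
      ((bb c k j (n + c) - bb c k j (n + c - c) : ℕ) : ℝ)
    rw [Nat.add_sub_cancel, Nat.cast_sub h3, eval_sub, eval_comp, ih (n + c) (by omega), eval_sub,
      eval_X, eval_C]
    have h4 : ((n + c : ℕ) : ℝ) - (c : ℝ) = (n : ℝ) := by
      push_cast
      ring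
    rw [h4, ih n h2]

private theorem asymP_deg (c k j : ℕ) (hj : j ≤ k) :
    (asymP c k j).natDegree ≤ k - j ∧
      (asymP c k j).coeff (k - j) = (c : ℝ) ^ j / ((k - j).factorial : ℝ) := by
  induction j with
  | zero =>
    show (C (1 / (k.factorial : ℝ)) * ascPochhammer ℝ k).natDegree ≤ k - 0 ∧
      (C (1 / (k.factorial : ℝ)) * ascPochhammer ℝ k).coeff (k - 0) =
        (c : ℝ) ^ 0 / ((k - 0).factorial : ℝ)
    rw [Nat.sub_zero, pow_zero]
    have h1 : (ascPochhammer ℝ k).natDegree = k := ascPochhammer_natDegree ℝ k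
    refine ⟨(natDegree_C_mul_le _ _).trans h1.le, ?_⟩
    rw [coeff_C_mul]
    have h2 : (ascPochhammer ℝ k).coeff k = 1 := by
      have h3 := monic_ascPochhammer ℝ k
      rw [Monic, leadingCoeff, h1] at h3
      exact h3
    rw [h2, mul_one]
  | succ j ih =>
    obtain ⟨D, hD⟩ : ∃ D, k - j = D + 1 := ⟨k - j - 1, by omega⟩
    have hD' : k - (j + 1) = D := by omega
    obtain ⟨h1, h2⟩ := ih (by omega)
    rw [hD] at h1 h2
    rw [hD']
    obtain ⟨h3, h4⟩ := asym_step (c : ℝ) (asymP c k j) D h1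
    refine ⟨h3, ?_⟩
    show (asymP c k j - (asymP c k j).comp (X - C (c : ℝ))).coeff D = _
    rw [h4, h2, Nat.factorial_succ, pow_succ]
    have h5 : (D.factorial : ℝ) ≠ 0 := by exact_mod_cast D.factorial_ne_zero
    have h6 : ((D : ℝ) + 1) ≠ 0 := by positivity
    push_cast
    field_simp

/-- NUM-A5. -/
theorem bb_asym (c k j : ℕ) (hj : j ≤ k) : ∃ K : ℝ, 0 < K ∧ ∀ n : ℕ, 1 ≤ n → j * c ≤ n →
    |(bb c k j n : ℝ) - (c : ℝ) ^ j / ((k - j).factorial : ℝ) * (n : ℝ) ^ (k - j)| ≤
      K / n * (n : ℝ) ^ (k - j) := by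
  obtain ⟨h1, h2⟩ := asymP_deg c k j hj
  set p := asymP c k j with hp
  set D := k - j with hD
  refine ⟨(∑ i ∈ range D, |p.coeff i|) + 1, by positivity, fun n hn hjn => ?_⟩
  have hn1 : (1 : ℝ) ≤ (n : ℝ) := by exact_mod_cast hn
  have hn0 : (0 : ℝ) < (n : ℝ) := by linarith
  rw [← asymP_eval c k j n hjn, ← h2, ← hp, eval_eq_sum_range' (Nat.lt_succ_of_le h1),
    sum_range_succ, add_sub_cancel_right]
  calc |∑ i ∈ range D, p.coeff i * (n : ℝ) ^ i| ≤ ∑ i ∈ range D, |p.coeff i * (n : ℝ) ^ i| :=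
        abs_sum_le_sum_abs _ _
    _ ≤ ∑ i ∈ range D, |p.coeff i| * (1 / (n : ℝ) * (n : ℝ) ^ D) := by
        refine sum_le_sum fun i hi => ?_
        rw [mem_range] at hi
        rw [abs_mul, abs_of_nonneg (pow_nonneg hn0.le i)]
        refine mul_le_mul_of_nonneg_left ?_ (abs_nonneg _)
        obtain ⟨E, hE⟩ : ∃ E, D = E + 1 := ⟨D - 1, by omega⟩
        rw [hE, pow_succ, one_div, mul_comm ((n : ℝ) ^ E), inv_mul_cancel_left₀ hn0.ne']
        exact pow_le_pow_right₀ hn1 (by omega)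
    _ = (∑ i ∈ range D, |p.coeff i|) * (1 / (n : ℝ) * (n : ℝ) ^ D) := by rw [sum_mul]
    _ ≤ ((∑ i ∈ range D, |p.coeff i|) + 1) * (1 / (n : ℝ) * (n : ℝ) ^ D) := by
        refine mul_le_mul_of_nonneg_right (by linarith) (by positivity)
    _ = ((∑ i ∈ range D, |p.coeff i|) + 1) / n * (n : ℝ) ^ D := by ring

end Pool.Agent.V7
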