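import Pool.Agent.V7.Cls
import Pool.Agent.V7.Num.Step

/-!
# V7, NUM: the numbers of one step, for multisets
-/

set_option autoImplicit false

namespace Pool.Agent.V7

open Finset Pool.Agent.H51.TB Pool.Agent.V7.ST

/-- The support of a kind. -/
def Kd.suppN : Kd → Finset ℕ
  | .ord _ I => I
  | .sw _ I => I

/-- The kind without the subspace `L_j`. -/
def Kd.delN (j : ℕ) : Kd → Kd
  | .ord μ I => .ord μ (I.erase j)
  | .sw i I => .sw i (I.erase j)

theorem Kd.eq_add_iffN {j : ℕ} {σ τ : Kd} (h : j ∉ σ.suppN) :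
    τ = Kd.add j σ ↔ j ∈ τ.suppN ∧ τ.delN j = σ := by
  rcases σ with ⟨μ, I⟩ | ⟨i, I⟩ <;> rcases τ with ⟨ν, J⟩ | ⟨k, J⟩
  · simp only [Kd.add, Kd.suppN, Kd.delN, Kd.ord.injEq] at h ⊢
    constructor
    · rintro ⟨rfl, rfl⟩
      exact ⟨mem_insert_self _ _, rfl, erase_insert h⟩
    · rintro ⟨h1, rfl, rfl⟩
      exact ⟨rfl, (insert_erase h1).symm⟩
  · simp only [Kd.add, Kd.delN, reduceCtorEq, and_false]
  · simp only [Kd.add, Kd.delN, reduceCtorEq, and_false]
  · simp only [Kd.add, Kd.suppN, Kd.delN, Kd.sw.injEq] at h ⊢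
    constructor
    · rintro ⟨rfl, rfl⟩
      exact ⟨mem_insert_self _ _, rfl, erase_insert h⟩
    · rintro ⟨h1, rfl, rfl⟩
      exact ⟨rfl, (insert_erase h1).symm⟩

theorem count_map_addN (j : ℕ) (s : Multiset Kd) (τ : Kd) (hs : ∀ σ ∈ s, j ∉ σ.suppN) :
    (s.map (Kd.add j)).count τ = if j ∈ τ.suppN then s.count (τ.delN j) else 0 := by
  induction s using Multiset.induction_on with
  | empty => simp
  | cons a s ih =>
    rw [Multiset.map_cons, Multiset.count_cons, ih fun σ hσ => hs σ (Multiset.mem_cons_of_mem hσ),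
      Multiset.count_cons]
    have h1 := Kd.eq_add_iffN (τ := τ) (hs a (Multiset.mem_cons_self a s))
    by_cases h2 : j ∈ τ.suppN
    · rw [if_pos h2, if_pos h2]
      congr 1
      exact if_congr (by rw [h1]; exact ⟨fun h => h.2, fun h => ⟨h2, h⟩⟩) rfl rfl
    · rw [if_neg h2, if_neg h2, if_neg fun h => h2 (h1.1 h).1]

/-- The multiset with given numbers. -/
theorem exists_msN (K : Finset Kd) (N : Kd → ℕ) (h : ∀ τ, N τ ≠ 0 → τ ∈ K) :
    ∃ s : Multiset Kd, ∀ τ, s.count τ = N τ := by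
  refine ⟨∑ σ ∈ K, Multiset.replicate (N σ) σ, fun τ => ?_⟩
  rw [Multiset.count_sum']
  simp only [Multiset.count_replicate]
  rw [Finset.sum_ite_eq' K τ]
  split_ifs with h1
  · rfl
  · by_contra h2
    exact h1 (h τ fun h3 => h2 h3.symm)

theorem not_mem_suppN {M j : ℕ} {τ : Kd} (h : τ ∈ kds M j) : j ∉ τ.suppN := by
  rw [mem_kds] at h
  rcases τ with ⟨μ, I⟩ | ⟨i, I⟩
  · intro h1
    have := h.2.2 h1
    rw [mem_range] at this
    omega
  · intro h1
    have := mem_Ico.1 (h.2 h1)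
    omega

/-- The numbers of the residual system. -/
theorem count_resN (M j : ℕ) (sL sO : Multiset Kd) (b y : ℕ) (hy : y ≤ b)
    (hL : ∀ τ ∈ sL, τ ∈ kds M j) (hO : ∀ τ ∈ sO, τ ∈ kds M j) (τ : Kd) :
    (sL.map (Kd.add j) + (sO + Multiset.replicate (b - y) (Kd.ord M ∅)) +
      Multiset.replicate y (Kd.sw j ∅)).count τ =
    resN M j (fun τ => (sL + sO + Multiset.replicate b (Kd.ord M ∅)).count τ)
      (fun τ => sL.count τ) y τ := by
  have h0 : ∀ σ : Kd, σ ∉ kds M j → sO.count σ = 0 ∧ sL.count σ = 0 := fun σ hσ =>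
    ⟨Multiset.count_eq_zero_of_notMem fun h => hσ (hO σ h),
      Multiset.count_eq_zero_of_notMem fun h => hσ (hL σ h)⟩
  rw [Multiset.count_add, Multiset.count_add, Multiset.count_add,
    count_map_addN j sL τ fun σ hσ => not_mem_suppN (hL σ hσ), Multiset.count_replicate,
    Multiset.count_replicate]
  rcases τ with ⟨μ, I⟩ | ⟨i, I⟩
  · simp only [Kd.suppN, Kd.delN, resN, Kd.ord.injEq, reduceCtorEq, if_false, add_zero,
      Multiset.count_add, Multiset.count_replicate]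
    by_cases hI : j ∈ I
    · have h1 : (Kd.ord μ I) ∉ kds M j := fun h => not_mem_suppN h hI
      have h2 : ¬(M = μ ∧ ∅ = I) := by
        rintro ⟨-, rfl⟩
        exact absurd hI (notMem_empty j)
      rw [if_pos hI, if_pos hI, (h0 _ h1).1, if_neg h2, add_zero, add_zero]
    · rw [if_neg hI, if_neg hI]
      by_cases h2 : M = μ ∧ ∅ = I
      · rw [if_pos h2, if_pos h2, if_pos ⟨h2.1.symm, h2.2.symm⟩]
        omega
      · rw [if_neg h2, if_neg h2, if_neg fun h => h2 ⟨h.1.symm, h.2.symm⟩]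
        omega
  · simp only [Kd.suppN, Kd.delN, resN, Kd.sw.injEq, reduceCtorEq, if_false, add_zero,
      Multiset.count_add, Multiset.count_replicate]
    by_cases hi : i = j
    · subst hi
      have h1 : ∀ J : Finset ℕ, (Kd.sw i J) ∉ kds M i := by
        intro J hJ
        rw [mem_kds] at hJ
        exact lt_irrefl _ hJ.1
      rw [if_pos rfl, (h0 _ (h1 I)).1, (h0 _ (h1 (I.erase i))).2]
      simp only [ite_self, zero_add, true_and]
      exact if_congr eq_comm rfl rfl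
    · have h3 : ¬(j = i ∧ ∅ = I) := fun h => hi h.1.symm
      rw [if_neg hi, if_neg h3]
      by_cases hI : j ∈ I
      · have h1 : (Kd.sw i I) ∉ kds M j := fun h => not_mem_suppN h hI
        rw [if_pos hI, if_pos hI, (h0 _ h1).1, add_zero, add_zero]
      · rw [if_neg hI, if_neg hI]
        omega

/-- NUM-B3: the numbers of one step, for multisets (hypothesis NUM of step_abs). -/
theorem num_ms (M c j : ℕ) (hj : j + 2 ≤ M) (hc : 2 * (2 * M - 1).choose M * M < c) (e' : ℝ)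
    (he' : 0 < e') : ∃ e₀ : ℝ, 0 < e₀ ∧ ∀ e : ℝ, 0 < e → e ≤ e₀ → ∀ X : ℕ, ∃ n₁ : ℕ, ∀ n : ℕ,
    n₁ ≤ n → ∀ s : Multiset Kd, Cls0 M c j n (e + 1 / (n : ℝ)) (fun τ => s.count τ) →
    -(bb c (M - 1) j n : ℤ) ≤ vd M c j n s → vd M c j n s < (X + 1) * bb c (M - 1) j n →
    ∀ x, x ≤ X → ∃ sL sO : Multiset Kd,
      s = sL + sO + Multiset.replicate (2 * bb c (M - 1) j (n - c)) (Kd.ord M ∅) ∧
      Cls0 M c j (n - c) (e + 1 / ((n - c : ℕ) : ℝ)) (fun τ => sL.count τ) ∧
      (x : ℤ) * bb c (M - 1) j (n - c) ≤ vd M c j (n - c) sL ∧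
      vd M c j (n - c) sL < (x + 1) * bb c (M - 1) j (n - c) ∧
      ∀ y, y ≤ 2 * bb c (M - 1) j (n - c) → Cls M c (j + 1) n e' (fun τ =>
        (sL.map (Kd.add j) + (sO + Multiset.replicate (2 * bb c (M - 1) j (n - c) - y) (Kd.ord M ∅)) +
          Multiset.replicate y (Kd.sw j ∅)).count τ) := by
  obtain ⟨e₀, he₀, h⟩ := num_step M c j hj hc e' he'
  refine ⟨e₀, he₀, fun e he hee X => ?_⟩
  obtain ⟨n₀, h⟩ := h e he hee (X + 1)
  refine ⟨n₀ + c, fun n hn s hs hv1 hv2 x hx => ?_⟩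
  obtain ⟨n, rfl⟩ : ∃ n', n = n' + c := ⟨n - c, by omega⟩
  rw [Nat.add_sub_cancel]
  have hsk : ∀ τ ∈ s, τ ∈ kds M j := fun τ hτ => hs.ok τ (Multiset.count_pos.2 hτ).ne'
  rw [vd_eq_vN M c j (n + c) s hsk] at hv1 hv2
  have hb0 : (0 : ℤ) ≤ bb c (M - 1) j (n + c) := Int.natCast_nonneg _
  have habs : |vN M c j (n + c) fun τ => s.count τ| ≤
      ((X + 1 : ℕ) : ℤ) * (bb c (M - 1) j (n + c) : ℤ) := by
    rw [abs_le]
    have h1 : (0 : ℤ) ≤ (X : ℤ) * bb c (M - 1) j (n + c) := mul_nonneg (Int.natCast_nonneg _) hb0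
    push_cast
    constructor
    · linarith
    · exact hv2.le
  obtain ⟨N', hN', hcls, hx1, hx2, hy⟩ := h n (by omega) (fun τ => s.count τ) hs habs x (by omega)
  obtain ⟨sL, hsL⟩ := exists_msN (kds M j) N' hcls.ok
  have hLk : ∀ τ ∈ sL, τ ∈ kds M j := fun τ hτ =>
    hcls.ok τ (by rw [← hsL]; exact (Multiset.count_pos.2 hτ).ne')
  have hfun : (fun τ => sL.count τ) = N' := funext hsL
  set b := 2 * bb c (M - 1) j n with hb
  have hle : sL + Multiset.replicate b (Kd.ord M ∅) ≤ s := by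
    rw [Multiset.le_iff_count]
    intro τ
    rw [Multiset.count_add, Multiset.count_replicate, hsL]
    split_ifs with h1
    · rw [← h1]
      have := (hy b le_rfl).1
      omega
    · exact hN' τ
  obtain ⟨sO, hsO⟩ := Multiset.le_iff_exists_add.1 hle
  have hsO' : s = sL + sO + Multiset.replicate b (Kd.ord M ∅) := by
    rw [hsO]
    exact add_right_comm _ _ _
  have hOk : ∀ τ ∈ sO, τ ∈ kds M j := fun τ hτ =>
    hsk τ (by rw [hsO]; exact Multiset.mem_add.2 (Or.inr hτ))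
  refine ⟨sL, sO, hsO', ?_, ?_, ?_, fun y hyb => ?_⟩
  · rw [hfun]
    exact hcls
  · rw [vd_eq_vN M c j n sL hLk, hfun]
    exact hx1
  · rw [vd_eq_vN M c j n sL hLk, hfun]
    exact hx2
  · have h1 := (hy y hyb).2
    have h2 : (fun τ => (sL.map (Kd.add j) +
        (sO + Multiset.replicate (b - y) (Kd.ord M ∅)) +
          Multiset.replicate y (Kd.sw j ∅)).count τ) = resN M j (fun τ => s.count τ) N' y := by
      funext τ
      rw [count_resN M j sL sO b y hyb hLk hOk τ, hfun, ← hsO']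
    rw [h2]
    exact h1

end Pool.Agent.V7
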