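import Pool.Agent.V7.Cls
import Pool.Agent.V7.ST.Bb

/-!
# V7: the numbers of one step, preparations
-/

set_option autoImplicit false

namespace Pool.Agent.V7

open Finset Pool.Agent.V7.ST

namespace NumStep

/-! ### Real numbers -/

/-- `h = c / m`, `q = 1 - h`. -/
theorem pow_ge {h : ℝ} (h1 : h ≤ 1) (d : ℕ) : 1 - d * h ≤ (1 - h) ^ d := by
  have := one_add_mul_le_pow (a := -h) (by linarith) d
  have e : (1 + -h) = 1 - h := by ring
  rw [e] at this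
  linarith

theorem pow_le' {h : ℝ} (h0 : 0 ≤ h) (h1 : h ≤ 1) (d : ℕ) :
    (1 - h) ^ d ≤ 1 - d * h + (d : ℝ) ^ 2 * h ^ 2 := by
  induction d with
  | zero => simp
  | succ d ih =>
    have h2 : 0 ≤ 1 - h := by linarith
    have h3 := mul_le_mul_of_nonneg_right ih h2
    rw [pow_succ]
    refine h3.trans ?_
    push_cast
    have hd : (0 : ℝ) ≤ d := Nat.cast_nonneg d
    have h5 : 0 ≤ (d : ℝ) * h ^ 2 := by positivity
    have h6 : 0 ≤ (d : ℝ) ^ 2 * h ^ 3 := by positivity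
    have h7 : 0 ≤ h ^ 2 := by positivity
    nlinarith

/-- The setting: `m = n + c`, `1 / n ≤ δ ≤ 1`. -/
structure Set' (c n m : ℕ) (δ : ℝ) : Prop where
  hc : 1 ≤ c
  hm : m = n + c
  hcn : c ≤ n
  hδ : 1 / (n : ℝ) ≤ δ
  hδ1 : δ ≤ 1

namespace Set'

variable {c n m : ℕ} {δ : ℝ} (S : Set' c n m δ)

include S

theorem n0 : (0 : ℝ) < n := by
  have := S.hc.trans S.hcn
  exact_mod_cast this

theorem m0 : (0 : ℝ) < m := by
  have h1 := S.hc
  have h2 := S.hm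
  have : 0 < m := by omega
  exact_mod_cast this

theorem c0 : (0 : ℝ) < c := by
  have h1 := S.hc
  exact_mod_cast h1

theorem n1 : (1 : ℝ) ≤ n := by
  have := S.hc.trans S.hcn
  exact_mod_cast this

theorem m1 : (1 : ℝ) ≤ m := by
  have h1 := S.hc
  have h2 := S.hm
  have : 1 ≤ m := by omega
  exact_mod_cast this

theorem nm : (n : ℝ) ≤ m := by
  have h2 := S.hm
  have : n ≤ m := by omega
  exact_mod_cast this

theorem mc : (m : ℝ) = n + c := by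
  rw [S.hm]
  push_cast
  ring

theorem δ0 : 0 < δ := lt_of_lt_of_le (one_div_pos.2 S.n0) S.hδ

theorem mδ : 1 / (m : ℝ) ≤ δ := (one_div_le_one_div_of_le S.n0 S.nm).trans S.hδ

theorem mδ' : 1 ≤ δ * m := by
  have h := S.mδ
  rw [div_le_iff₀ S.m0] at h
  exact h

theorem h0 : 0 ≤ (c : ℝ) / m := div_nonneg (Nat.cast_nonneg _) (Nat.cast_nonneg _)

theorem h1 : (c : ℝ) / m ≤ 1 := by
  rw [div_le_one S.m0, S.mc]
  linarith [S.n0]

theorem q_eq : (n : ℝ) / m = 1 - c / m := by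
  have := S.m0
  rw [eq_sub_iff_add_eq, ← add_div, ← S.mc, div_self this.ne']

theorem q0 : 0 ≤ (n : ℝ) / m := div_nonneg (Nat.cast_nonneg _) (Nat.cast_nonneg _)

theorem q1 : (n : ℝ) / m ≤ 1 := by
  rw [S.q_eq]
  linarith [S.h0]

theorem qm (d : ℕ) : ((n : ℝ) / m) ^ d * (m : ℝ) ^ d = (n : ℝ) ^ d := by
  rw [← mul_pow, div_mul_cancel₀ _ S.m0.ne']

theorem q_ge (d : ℕ) : 1 - d * (c / m : ℝ) ≤ ((n : ℝ) / m) ^ d := by
  rw [S.q_eq]
  exact pow_ge S.h1 d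

theorem q_le (d : ℕ) : ((n : ℝ) / m) ^ d ≤ 1 - d * (c / m : ℝ) + (d : ℝ) ^ 2 * (c / m : ℝ) ^ 2 := by
  rw [S.q_eq]
  exact pow_le' S.h0 S.h1 d

theorem q_pow_le (d : ℕ) : ((n : ℝ) / m) ^ d ≤ 1 := pow_le_one₀ S.q0 S.q1

theorem one_le_δW {e : ℕ} (he : 1 ≤ e) : 1 ≤ δ * (m : ℝ) ^ e := by
  have h1 : (m : ℝ) ≤ (m : ℝ) ^ e := by
    calc (m : ℝ) = (m : ℝ) ^ 1 := (pow_one _).symm
      _ ≤ (m : ℝ) ^ e := pow_le_pow_right₀ S.m1 he
  exact S.mδ'.trans (mul_le_mul_of_nonneg_left h1 S.δ0.le)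

/-- the difference of the totals: nominal size of the next level -/
theorem diff {T T' ν ν₁ J : ℝ} {e E : ℕ} (he : 1 ≤ e) (hE : e + 1 ≤ E) (hJ : 0 ≤ J) (hν : 0 ≤ ν)
    (hν₁ : ν ≤ ν₁) (hT0 : 0 ≤ T)
    (hT : |T - ν * (m : ℝ) ^ (e + 1)| ≤ δ * (m : ℝ) ^ (e + 1))
    (h1 : ((n : ℝ) / m) ^ (e + 1) * T - J ≤ T') (h2 : T' ≤ ((n : ℝ) / m) ^ (e + 1) * T) :
    |T - T' - ν * ((e + 1 : ℕ) : ℝ) * c * (m : ℝ) ^ e| ≤
      (J + (ν₁ + 1) * (E : ℝ) ^ 2 * (c : ℝ) ^ 2 + E * c) * δ * (m : ℝ) ^ e := by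
  set W : ℝ := (m : ℝ) ^ e with hW
  have hm := S.m0
  have hW0 : 0 < W := pow_pos hm e
  have hmW : (m : ℝ) ^ (e + 1) = m * W := by rw [pow_succ]; ring
  rw [hmW] at hT
  set d : ℝ := ((e + 1 : ℕ) : ℝ) with hd
  have hd0 : 0 ≤ d := Nat.cast_nonneg _
  have hdE : d ≤ E := Nat.cast_le.2 hE
  set h : ℝ := (c : ℝ) / m with hh
  have hhm : h * m = c := div_mul_cancel₀ _ hm.ne'
  have hh0 : 0 ≤ h := S.h0
  have hq1 := S.q_ge (e + 1)
  have hq2 := S.q_le (e + 1)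
  set Q : ℝ := ((n : ℝ) / m) ^ (e + 1) with hQ
  obtain ⟨hTa, hTb⟩ := abs_le.1 hT
  have hc0 : (0 : ℝ) < c := S.c0
  have hE0 : (0 : ℝ) ≤ E := Nat.cast_nonneg _
  -- bounds
  have b1 : T ≤ (ν₁ + 1) * (m * W) := by
    have : δ * (m * W) ≤ 1 * (m * W) := mul_le_mul_of_nonneg_right S.hδ1 (by positivity)
    have h3 : ν * (m * W) ≤ ν₁ * (m * W) := mul_le_mul_of_nonneg_right hν₁ (by positivity)
    linarith
  have b2 : T * (d * h) ≤ ν * d * c * W + E * c * δ * W := by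
    have h3 : T ≤ ν * (m * W) + δ * (m * W) := by linarith
    have h4 : T * (d * h) ≤ (ν * (m * W) + δ * (m * W)) * (d * h) :=
      mul_le_mul_of_nonneg_right h3 (by positivity)
    have h5 : (ν * (m * W) + δ * (m * W)) * (d * h) = ν * d * (h * m) * W + d * (h * m) * δ * W := by
      ring
    rw [h5, hhm] at h4
    have h6 : d * c * δ * W ≤ E * c * δ * W := by
      have := S.δ0
      gcongr
    linarith
  have b3 : ν * d * c * W - E * c * δ * W ≤ T * (d * h) := by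
    have h3 : ν * (m * W) - δ * (m * W) ≤ T := by linarith
    have h4 : (ν * (m * W) - δ * (m * W)) * (d * h) ≤ T * (d * h) :=
      mul_le_mul_of_nonneg_right h3 (by positivity)
    have h5 : (ν * (m * W) - δ * (m * W)) * (d * h) = ν * d * (h * m) * W - d * (h * m) * δ * W := by
      ring
    rw [h5, hhm] at h4
    have h6 : d * c * δ * W ≤ E * c * δ * W := by
      have := S.δ0
      gcongr
    linarith
  have b4 : T * (d ^ 2 * h ^ 2) ≤ (ν₁ + 1) * (E : ℝ) ^ 2 * (c : ℝ) ^ 2 * δ * W := by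
    have hν₁0 : 0 ≤ ν₁ := hν.trans hν₁
    have h3 : T * (d ^ 2 * h ^ 2) ≤ ((ν₁ + 1) * (m * W)) * (d ^ 2 * h ^ 2) :=
      mul_le_mul_of_nonneg_right b1 (by positivity)
    have h4 : ((ν₁ + 1) * (m * W)) * (d ^ 2 * h ^ 2) =
        (ν₁ + 1) * d ^ 2 * (h * m) * h * W := by ring
    rw [h4, hhm] at h3
    refine h3.trans ?_
    have h5 : h = c * (1 / m) := by rw [hh]; ring
    have h6 : h ≤ c * δ := by
      rw [h5]
      exact mul_le_mul_of_nonneg_left S.mδ hc0.le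
    have h7 : d ^ 2 ≤ (E : ℝ) ^ 2 := pow_le_pow_left₀ hd0 hdE 2
    calc (ν₁ + 1) * d ^ 2 * c * h * W ≤ (ν₁ + 1) * (E : ℝ) ^ 2 * c * (c * δ) * W := by gcongr
      _ = (ν₁ + 1) * (E : ℝ) ^ 2 * (c : ℝ) ^ 2 * δ * W := by ring
  have b5 : J ≤ J * δ * W := by
    have h3 := S.one_le_δW he
    rw [← hW] at h3
    calc J = J * 1 := (mul_one J).symm
      _ ≤ J * (δ * W) := mul_le_mul_of_nonneg_left h3 hJ
      _ = J * δ * W := by ring
  -- 1 - Q
  have c1 : T - T' ≤ T * (d * h) + J := by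
    have h3 : T * (1 - d * h) ≤ T * Q := mul_le_mul_of_nonneg_left hq1 hT0
    have h4 : Q * T = T * Q := mul_comm _ _
    linarith
  have c2 : T * (d * h) - T * (d ^ 2 * h ^ 2) ≤ T - T' := by
    have h3 : T * Q ≤ T * (1 - d * h + d ^ 2 * h ^ 2) := mul_le_mul_of_nonneg_left hq2 hT0
    have h4 : Q * T = T * Q := mul_comm _ _
    linarith
  have hsplit : (J + (ν₁ + 1) * (E : ℝ) ^ 2 * (c : ℝ) ^ 2 + E * c) * δ * W =
      J * δ * W + (ν₁ + 1) * (E : ℝ) ^ 2 * (c : ℝ) ^ 2 * δ * W + E * c * δ * W := by ring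
  have hp1 : 0 ≤ (ν₁ + 1) * (E : ℝ) ^ 2 * (c : ℝ) ^ 2 * δ * W := by
    have := S.δ0
    have hν₁0 : 0 ≤ ν₁ := hν.trans hν₁
    positivity
  have hp2 : 0 ≤ J * δ * W := by
    have := S.δ0
    positivity
  rw [hsplit, abs_le]
  constructor <;> linarith

/-- the totals of the trace: nominal size of the same level -/
theorem same {T T' ν ν₁ J : ℝ} {d E : ℕ} (hd : 1 ≤ d) (hE : d ≤ E) (hJ : 0 ≤ J) (hν : 0 ≤ ν)
    (hν₁ : ν ≤ ν₁) (hT0 : 0 ≤ T) (hT : |T - ν * (m : ℝ) ^ d| ≤ δ * (m : ℝ) ^ d)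
    (h1 : ((n : ℝ) / m) ^ d * T - J ≤ T') (h2 : T' ≤ ((n : ℝ) / m) ^ d * T) :
    |T' - ν * (m : ℝ) ^ d| ≤ (J + (ν₁ + 1) * E * c + 1) * δ * (m : ℝ) ^ d := by
  set W : ℝ := (m : ℝ) ^ d with hW
  have hm := S.m0
  have hW0 : 0 < W := pow_pos hm d
  have hd0 : (0 : ℝ) ≤ d := Nat.cast_nonneg _
  have hdE : (d : ℝ) ≤ E := by exact_mod_cast hE
  set h : ℝ := (c : ℝ) / m with hh
  have hh0 : 0 ≤ h := S.h0
  have hq1 := S.q_ge d
  have hq2 := S.q_pow_le d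
  set Q : ℝ := ((n : ℝ) / m) ^ d with hQ
  obtain ⟨hTa, hTb⟩ := abs_le.1 hT
  have hc0 : (0 : ℝ) < c := S.c0
  have hν₁0 : 0 ≤ ν₁ := hν.trans hν₁
  have b1 : T ≤ (ν₁ + 1) * W := by
    have : δ * W ≤ 1 * W := mul_le_mul_of_nonneg_right S.hδ1 hW0.le
    have h3 : ν * W ≤ ν₁ * W := mul_le_mul_of_nonneg_right hν₁ hW0.le
    linarith
  have h5 : h = c * (1 / m) := by rw [hh]; ring
  have h6 : h ≤ c * δ := by
    rw [h5]
    exact mul_le_mul_of_nonneg_left S.mδ hc0.le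
  have b4 : T * (d * h) ≤ (ν₁ + 1) * E * c * δ * W := by
    have h3 : T * (d * h) ≤ ((ν₁ + 1) * W) * (d * h) :=
      mul_le_mul_of_nonneg_right b1 (by positivity)
    refine h3.trans ?_
    calc ((ν₁ + 1) * W) * (d * h) ≤ ((ν₁ + 1) * W) * (E * (c * δ)) := by gcongr
      _ = (ν₁ + 1) * E * c * δ * W := by ring
  have b5 : J ≤ J * δ * W := by
    have h3 := S.one_le_δW hd
    rw [← hW] at h3
    calc J = J * 1 := (mul_one J).symm
      _ ≤ J * (δ * W) := mul_le_mul_of_nonneg_left h3 hJ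
      _ = J * δ * W := by ring
  have c1 : T - T * (d * h) ≤ Q * T := by
    have h3 : T * (1 - d * h) ≤ T * Q := mul_le_mul_of_nonneg_left hq1 hT0
    have h4 : Q * T = T * Q := mul_comm _ _
    linarith
  have c2 : Q * T ≤ T := by
    have h3 : Q * T ≤ 1 * T := mul_le_mul_of_nonneg_right hq2 hT0
    linarith
  have hsplit : (J + (ν₁ + 1) * E * c + 1) * δ * W =
      J * δ * W + (ν₁ + 1) * E * c * δ * W + δ * W := by ring
  have hp1 : 0 ≤ (ν₁ + 1) * E * c * δ * W := by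
    have := S.δ0
    positivity
  have hp2 : 0 ≤ J * δ * W := by
    have := S.δ0
    positivity
  rw [hsplit, abs_le]
  constructor <;> linarith

/-- upper bounds for one kind: the residual part -/
theorem one_res {a a' b : ℝ} {e E : ℕ} (he : 1 ≤ e) (hE : e + 1 ≤ E) (ha : 0 ≤ a)
    (hab : a ≤ (b + δ) * (m : ℝ) ^ (e + 1))
    (h1 : ((n : ℝ) / m) ^ (e + 1) * a - 1 ≤ a') :
    a - a' ≤ (b * ((e + 1 : ℕ) : ℝ) * c + (E * c + 1) * δ) * (m : ℝ) ^ e := by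
  set W : ℝ := (m : ℝ) ^ e with hW
  have hm := S.m0
  have hW0 : 0 < W := pow_pos hm e
  have hmW : (m : ℝ) ^ (e + 1) = m * W := by rw [pow_succ]; ring
  rw [hmW] at hab
  set d : ℝ := ((e + 1 : ℕ) : ℝ) with hd
  have hd0 : 0 ≤ d := Nat.cast_nonneg _
  have hdE : d ≤ E := Nat.cast_le.2 hE
  set h : ℝ := (c : ℝ) / m with hh
  have hhm : h * m = c := div_mul_cancel₀ _ hm.ne'
  have hh0 : 0 ≤ h := S.h0
  have hq1 := S.q_ge (e + 1)
  set Q : ℝ := ((n : ℝ) / m) ^ (e + 1) with hQ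
  have hc0 : (0 : ℝ) < c := S.c0
  have c1 : a - a' ≤ a * (d * h) + 1 := by
    have h3 : a * (1 - d * h) ≤ a * Q := mul_le_mul_of_nonneg_left hq1 ha
    have h4 : Q * a = a * Q := mul_comm _ _
    linarith
  have c2 : a * (d * h) ≤ ((b + δ) * (m * W)) * (d * h) :=
    mul_le_mul_of_nonneg_right hab (by positivity)
  have c3 : ((b + δ) * (m * W)) * (d * h) = b * d * (h * m) * W + d * (h * m) * δ * W := by ring
  rw [c3, hhm] at c2
  have c4 : d * c * δ * W ≤ E * c * δ * W := by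
    have := S.δ0
    gcongr
  have c5 := S.one_le_δW he
  rw [← hW] at c5
  have c6 : (b * d * c + (E * c + 1) * δ) * W = b * d * c * W + E * c * δ * W + δ * W := by ring
  rw [c6]
  linarith

/-- upper bounds for one kind: the trace -/
theorem one_tr {a a' b : ℝ} {d : ℕ} (ha : 0 ≤ a) (hab : a ≤ (b + δ) * (m : ℝ) ^ d)
    (h2 : a' ≤ ((n : ℝ) / m) ^ d * a) : a' ≤ (b + δ) * (m : ℝ) ^ d := by
  have hq2 := S.q_pow_le d
  have h3 : ((n : ℝ) / m) ^ d * a ≤ 1 * a := mul_le_mul_of_nonneg_right hq2 ha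
  linarith

end Set'

end NumStep

end Pool.Agent.V7
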