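import Pool.Agent.V7.Num.StepA

/-!
# V7: the numbers of one step, the kinds of the next level
-/

set_option autoImplicit false

namespace Pool.Agent.V7

open Finset Pool.Agent.V7.ST

namespace NumStep

/-! ### The kinds of the next level -/

theorem sub_of_succ {j : ℕ} {I : Finset ℕ} (h : I ⊆ range (j + 1)) (hj : j ∉ I) :
    I ⊆ range j := by
  intro x hx
  have h1 := mem_range.1 (h hx)
  have h2 : x ≠ j := fun h => hj (h ▸ hx)
  rw [mem_range]
  omega

theorem cases_sub {j : ℕ} {I : Finset ℕ} (h : I ⊆ range (j + 1)) :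
    (j ∉ I ∧ I ⊆ range j) ∨ ∃ I', I' ⊆ range j ∧ I = insert j I' := by
  by_cases hj : j ∈ I
  · right
    refine ⟨I.erase j, sub_of_succ ((erase_subset j I).trans h) (notMem_erase j I), ?_⟩
    rw [insert_erase hj]
  · exact Or.inl ⟨hj, sub_of_succ h hj⟩

theorem off {j : ℕ} {I : Finset ℕ} (h : I ⊆ range j) : j ∉ I := fun h1 =>
  absurd (mem_range.1 (h h1)) (lt_irrefl j)

theorem ok_succ {M j : ℕ} {τ : Kd} :
    τ.Ok M (j + 1) ↔ τ.Ok M j ∨ (∃ σ : Kd, σ.Ok M j ∧ σ.add j = τ) ∨ τ = .sw j ∅ := by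
  rcases τ with ⟨μ, I⟩ | ⟨i, I⟩
  · constructor
    · rintro ⟨h1, h2, h3⟩
      by_cases hj : j ∈ I
      · refine Or.inr (Or.inl ⟨.ord μ (I.erase j), ⟨h1, h2, ?_⟩, ?_⟩)
        · exact sub_of_succ ((erase_subset j I).trans h3) (notMem_erase j I)
        · show Kd.ord μ (insert j (I.erase j)) = _
          rw [insert_erase hj]
      · exact Or.inl ⟨h1, h2, sub_of_succ h3 hj⟩
    · rintro (h | ⟨σ, hσ, h⟩ | h)
      · exact ⟨h.1, h.2.1, h.2.2.trans (range_mono (Nat.le_succ j))⟩
      · rcases σ with ⟨μ', I'⟩ | ⟨i', I'⟩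
        · have h' : Kd.ord μ' (insert j I') = .ord μ I := h
          rw [Kd.ord.injEq] at h'
          obtain ⟨e1, e2⟩ := h'
          rw [← e1, ← e2]
          refine ⟨hσ.1, hσ.2.1, ?_⟩
          rw [range_add_one]
          exact insert_subset_insert j hσ.2.2
        · have h' : Kd.sw i' (insert j I') = .ord μ I := h
          exact absurd h' (by simp)
      · exact absurd h (by simp)
  · constructor
    · rintro ⟨h1, h2⟩
      by_cases hi : i = j
      · subst hi
        have h3 : I = ∅ := by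
          rw [Ico_self] at h2
          exact subset_empty.1 h2
        rw [h3]
        exact Or.inr (Or.inr rfl)
      · have hi' : i < j := by omega
        by_cases hj : j ∈ I
        · refine Or.inr (Or.inl ⟨.sw i (I.erase j), ⟨hi', fun x hx => ?_⟩, ?_⟩)
          · rw [mem_erase] at hx
            have h4 := mem_Ico.1 (h2 hx.2)
            rw [mem_Ico]
            have h5 := hx.1
            omega
          · show Kd.sw i (insert j (I.erase j)) = _
            rw [insert_erase hj]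
        · refine Or.inl ⟨hi', fun x hx => ?_⟩
          have h4 := mem_Ico.1 (h2 hx)
          have h5 : x ≠ j := fun h => hj (h ▸ hx)
          rw [mem_Ico]
          omega
    · rintro (h | ⟨σ, hσ, h⟩ | h)
      · refine ⟨by have := h.1; omega, h.2.trans fun x hx => ?_⟩
        have h4 := mem_Ico.1 hx
        rw [mem_Ico]
        omega
      · rcases σ with ⟨μ', I'⟩ | ⟨i', I'⟩
        · have h' : Kd.ord μ' (insert j I') = .sw i I := h
          exact absurd h' (by simp)
        · have h' : Kd.sw i' (insert j I') = .sw i I := h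
          rw [Kd.sw.injEq] at h'
          obtain ⟨e1, e2⟩ := h'
          rw [← e1, ← e2]
          have h3 := hσ.1
          refine ⟨by omega, fun x hx => ?_⟩
          rw [mem_insert] at hx
          rw [mem_Ico]
          rcases hx with rfl | hx
          · omega
          · have h4 := mem_Ico.1 (hσ.2 hx)
            omega
      · rw [Kd.sw.injEq] at h
        obtain ⟨e1, e2⟩ := h
        rw [e1, e2]
        exact ⟨Nat.lt_succ_self j, empty_subset _⟩

theorem add_inj {M j : ℕ} {σ τ : Kd} (hσ : σ.Ok M j) (hτ : τ.Ok M j) (h : σ.add j = τ.add j) :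
    σ = τ := by
  have h1 := Off.of_ok hσ
  have h2 := Off.of_ok hτ
  rcases σ with ⟨μ, I⟩ | ⟨i, I⟩ <;> rcases τ with ⟨μ', I'⟩ | ⟨i', I'⟩
  · have h' : Kd.ord μ (insert j I) = .ord μ' (insert j I') := h
    rw [Kd.ord.injEq] at h'
    have h3 : j ∉ I := h1
    have h4 : j ∉ I' := h2
    rw [h'.1, ← erase_insert h3, h'.2, erase_insert h4]
  · have h' : Kd.ord μ (insert j I) = .sw i' (insert j I') := h
    exact absurd h' (by simp)
  · have h' : Kd.sw i (insert j I) = .ord μ' (insert j I') := h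
    exact absurd h' (by simp)
  · have h' : Kd.sw i (insert j I) = .sw i' (insert j I') := h
    rw [Kd.sw.injEq] at h'
    have h3 : j ∉ I := h1
    have h4 : j ∉ I' := h2
    rw [h'.1, ← erase_insert h3, h'.2, erase_insert h4]

theorem kds_succ (M j : ℕ) :
    kds M (j + 1) = kds M j ∪ ((kds M j).image (Kd.add j) ∪ {Kd.sw j ∅}) := by
  ext τ
  rw [mem_kds, ok_succ, mem_union, mem_union, mem_image, mem_singleton, mem_kds]
  constructor
  · rintro (h | ⟨σ, hσ, h⟩ | h)
    · exact Or.inl h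
    · exact Or.inr (Or.inl ⟨σ, mem_kds.2 hσ, h⟩)
    · exact Or.inr (Or.inr h)
  · rintro (h | ⟨σ, hσ, h⟩ | h)
    · exact Or.inl h
    · exact Or.inr (Or.inl ⟨σ, mem_kds.1 hσ, h⟩)
    · exact Or.inr (Or.inr h)

theorem add_not_ok {M j : ℕ} {σ : Kd} : ¬ (σ.add j).Ok M j := by
  intro h
  have h1 := Off.of_ok h
  rcases σ with ⟨μ, I⟩ | ⟨i, I⟩
  · exact h1 (mem_insert_self j I)
  · exact h1 (mem_insert_self j I)

theorem sum_kds_succ (M j : ℕ) (f : Kd → ℝ) :
    ∑ τ ∈ kds M (j + 1), f τ =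
      ∑ τ ∈ kds M j, f τ + (∑ τ ∈ kds M j, f (τ.add j) + f (.sw j ∅)) := by
  rw [kds_succ, sum_union, sum_union, sum_image, sum_singleton]
  · intro σ hσ τ hτ h
    exact add_inj (mem_kds.1 hσ) (mem_kds.1 hτ) h
  · rw [disjoint_singleton_right, mem_image]
    rintro ⟨σ, -, h⟩
    rcases σ with ⟨μ, I⟩ | ⟨i, I⟩
    · have h' : Kd.ord μ (insert j I) = .sw j ∅ := h
      exact absurd h' (by simp)
    · have h' : Kd.sw i (insert j I) = .sw j ∅ := h
      rw [Kd.sw.injEq] at h'
      exact insert_ne_empty j I h'.2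
  · rw [disjoint_left]
    intro τ hτ h
    rw [mem_union, mem_image, mem_singleton] at h
    rcases h with ⟨σ, -, h⟩ | h
    · rw [← h] at hτ
      exact add_not_ok (mem_kds.1 hτ)
    · rw [h] at hτ
      exact absurd (mem_kds.1 hτ).1 (lt_irrefl j)

/-! ### The residual numbers -/

/-- Real version of `resN`. -/
noncomputable def resR (M j : ℕ) (N P : Kd → ℝ) (y : ℝ) : Kd → ℝ
  | .ord μ I => if j ∈ I then P (.ord μ (I.erase j)) else
      N (.ord μ I) - P (.ord μ I) - if μ = M ∧ I = ∅ then y else 0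
  | .sw i I => if i = j then (if I = ∅ then y else 0) else
      if j ∈ I then P (.sw i (I.erase j)) else N (.sw i I) - P (.sw i I)

/-- Real version of `tot`. -/
noncomputable def totR (M l : ℕ) (N : Kd → ℝ) (I : Finset ℕ) : ℝ :=
  N (.ord M I) + ∑ i ∈ range l, N (.sw i I)

/-- Real version of `vN`. -/
noncomputable def vR (M c j n : ℕ) (N : Kd → ℝ) : ℝ :=
  (bb c (2 * M - 1) j n : ℝ) - ∑ τ ∈ kds M j, N τ * (wt M c n τ : ℝ)

theorem vR_cast (M c j n : ℕ) (N : Kd → ℕ) :
    vR M c j n (fun τ => (N τ : ℝ)) = ((vN M c j n N : ℤ) : ℝ) := by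
  unfold vR vN
  push_cast
  rfl

theorem totR_cast (M l : ℕ) (N : Kd → ℕ) (I : Finset ℕ) :
    totR M l (fun τ => (N τ : ℝ)) I = (tot M l N I : ℝ) := by
  unfold totR tot
  push_cast
  rfl

section

variable {M j : ℕ} {N P : Kd → ℝ} {y : ℝ}

theorem resR_sw_off {i : ℕ} {I : Finset ℕ} (hi : i < j) (hI : j ∉ I) :
    resR M j N P y (.sw i I) = N (.sw i I) - P (.sw i I) := by
  show (if i = j then (if I = ∅ then y else 0) else
      if j ∈ I then P (.sw i (I.erase j)) else N (.sw i I) - P (.sw i I)) = _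
  rw [if_neg (by omega), if_neg hI]

theorem resR_sw_on {i : ℕ} {I : Finset ℕ} (hi : i < j) (hI : j ∉ I) :
    resR M j N P y (.sw i (insert j I)) = P (.sw i I) := by
  show (if i = j then (if insert j I = ∅ then y else 0) else
      if j ∈ insert j I then P (.sw i ((insert j I).erase j)) else
        N (.sw i (insert j I)) - P (.sw i (insert j I))) = _
  rw [if_neg (by omega), if_pos (mem_insert_self j I), erase_insert hI]

theorem resR_sw_self {I : Finset ℕ} :
    resR M j N P y (.sw j I) = if I = ∅ then y else 0 := by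
  show (if j = j then (if I = ∅ then y else 0) else
      if j ∈ I then P (.sw j (I.erase j)) else N (.sw j I) - P (.sw j I)) = _
  rw [if_pos rfl]

theorem resR_ord_off {μ : ℕ} {I : Finset ℕ} (hI : j ∉ I) :
    resR M j N P y (.ord μ I) =
      N (.ord μ I) - P (.ord μ I) - if μ = M ∧ I = ∅ then y else 0 := by
  show (if j ∈ I then P (.ord μ (I.erase j)) else
      N (.ord μ I) - P (.ord μ I) - if μ = M ∧ I = ∅ then y else 0) = _
  rw [if_neg hI]

theorem resR_ord_on {μ : ℕ} {I : Finset ℕ} (hI : j ∉ I) :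
    resR M j N P y (.ord μ (insert j I)) = P (.ord μ I) := by
  show (if j ∈ insert j I then P (.ord μ ((insert j I).erase j)) else
      N (.ord μ (insert j I)) - P (.ord μ (insert j I)) -
        if μ = M ∧ insert j I = ∅ then y else 0) = _
  rw [if_pos (mem_insert_self j I), erase_insert hI]

theorem totR_off {I : Finset ℕ} (hI : j ∉ I) :
    totR M (j + 1) (resR M j N P y) I = totR M j N I - totR M j P I := by
  unfold totR
  rw [sum_range_succ, resR_sw_self, resR_ord_off hI,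
    sum_congr rfl fun i hi => resR_sw_off (M := M) (N := N) (P := P) (y := y) (mem_range.1 hi) hI,
    sum_sub_distrib]
  by_cases h : I = ∅
  · rw [if_pos h, if_pos ⟨rfl, h⟩]
    ring
  · rw [if_neg h, if_neg (fun h' => h h'.2)]
    ring

theorem totR_on {I : Finset ℕ} (hI : j ∉ I) :
    totR M (j + 1) (resR M j N P y) (insert j I) = totR M j P I := by
  unfold totR
  rw [sum_range_succ, resR_sw_self, resR_ord_on hI,
    sum_congr rfl fun i hi => resR_sw_on (M := M) (N := N) (P := P) (y := y) (mem_range.1 hi) hI,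
    if_neg (insert_ne_empty j I), add_zero]

theorem resR_add {τ : Kd} (hτ : τ.Ok M j) : resR M j N P y (τ.add j) = P τ := by
  have h1 := Off.of_ok hτ
  rcases τ with ⟨μ, I⟩ | ⟨i, I⟩
  · exact resR_ord_on h1
  · exact resR_sw_on hτ.1 h1

theorem resR_ok {τ : Kd} (hτ : τ.Ok M j) :
    resR M j N P y τ = N τ - P τ - if τ = .ord M ∅ then y else 0 := by
  have h1 := Off.of_ok hτ
  rcases τ with ⟨μ, I⟩ | ⟨i, I⟩
  · rw [resR_ord_off (μ := μ) h1]
    simp only [Kd.ord.injEq]
  · rw [resR_sw_off hτ.1 h1, if_neg (by simp), sub_zero]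

theorem vR_res {c n m : ℕ} (hM : 1 ≤ M) (hc : 0 < c) (hm : m = n + c)
    (hn : (j + 1) * c + 1 ≤ m) :
    vR M c (j + 1) m (resR M j N P y) = vR M c j m N - vR M c j n P + y := by
  unfold vR
  have hmn : m - c = n := by omega
  have hb := bb_succ_add (c := c) (j := j) (n := m) hc (2 * M - 1) (Nat.le_of_succ_le hn)
  rw [hmn] at hb
  have hb' : (bb c (2 * M - 1) (j + 1) m : ℝ) + bb c (2 * M - 1) j n = bb c (2 * M - 1) j m := by
    exact_mod_cast hb
  have h0 : Kd.ord M ∅ ∈ kds M j := mem_kds.2 ⟨hM, le_rfl, empty_subset _⟩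
  rw [sum_kds_succ]
  have h1 : ∑ τ ∈ kds M j, resR M j N P y τ * (wt M c m τ : ℝ) =
      ∑ τ ∈ kds M j, N τ * (wt M c m τ : ℝ) - ∑ τ ∈ kds M j, P τ * (wt M c m τ : ℝ) -
        y * (wt M c m (.ord M ∅) : ℝ) := by
    have h2 : ∀ τ ∈ kds M j, resR M j N P y τ * (wt M c m τ : ℝ) =
        N τ * (wt M c m τ : ℝ) - P τ * (wt M c m τ : ℝ) -
          (if τ = .ord M ∅ then y * (wt M c m τ : ℝ) else 0) := by
      intro τ hτ
      rw [resR_ok (mem_kds.1 hτ)]
      split_ifs <;> ring
    rw [sum_congr rfl h2, sum_sub_distrib, sum_sub_distrib, sum_ite_eq', if_pos h0]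
  have h3 : ∑ τ ∈ kds M j, resR M j N P y (τ.add j) * (wt M c m (τ.add j) : ℝ) =
      ∑ τ ∈ kds M j, P τ * (wt M c m τ : ℝ) - ∑ τ ∈ kds M j, P τ * (wt M c n τ : ℝ) := by
    rw [← sum_sub_distrib]
    refine sum_congr rfl fun τ hτ => ?_
    have h4 := wt_add (M := M) (c := c) (j := j) (n := m) hc hn (mem_kds.1 hτ)
    rw [hmn] at h4
    have h5 : (wt M c m (τ.add j) : ℝ) + wt M c n τ = wt M c m τ := by exact_mod_cast h4
    rw [resR_add (mem_kds.1 hτ), ← h5]
    ring
  have h6 : resR M j N P y (.sw j ∅) * (wt M c m (.sw j ∅) : ℝ) =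
      y * (wt M c m (.ord M ∅) : ℝ) - y := by
    have h7 := wt_sj (M := M) (c := c) (j := j) (n := m) hc (by omega)
    have h8 : (wt M c m (.sw j ∅) : ℝ) + 1 = wt M c m (.ord M ∅) := by exact_mod_cast h7
    rw [resR_sw_self, if_pos rfl, ← h8]
    ring
  rw [h1, h3, h6]
  linarith

end

theorem resN_cast {M j y : ℕ} {N N' : Kd → ℕ} (h : ∀ τ, N' τ ≤ N τ)
    (hy : y + N' (.ord M ∅) ≤ N (.ord M ∅)) (τ : Kd) :
    (resN M j N N' y τ : ℝ) = resR M j (fun τ => (N τ : ℝ)) (fun τ => (N' τ : ℝ)) y τ := by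
  rcases τ with ⟨μ, I⟩ | ⟨i, I⟩
  · show ((if j ∈ I then N' (.ord μ (I.erase j)) else
      N (.ord μ I) - N' (.ord μ I) - if μ = M ∧ I = ∅ then y else 0 : ℕ) : ℝ) =
      (if j ∈ I then (N' (.ord μ (I.erase j)) : ℝ) else
      (N (.ord μ I) : ℝ) - N' (.ord μ I) - if μ = M ∧ I = ∅ then (y : ℝ) else 0)
    split_ifs with h1 h2
    · rfl
    · rw [h2.1, h2.2, Nat.cast_sub (by omega), Nat.cast_sub (h _)]
    · rw [Nat.sub_zero, Nat.cast_sub (h _), sub_zero]
  · show ((if i = j then (if I = ∅ then y else 0) else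
      if j ∈ I then N' (.sw i (I.erase j)) else N (.sw i I) - N' (.sw i I) : ℕ) : ℝ) =
      (if i = j then (if I = ∅ then (y : ℝ) else 0) else
      if j ∈ I then (N' (.sw i (I.erase j)) : ℝ) else (N (.sw i I) : ℝ) - N' (.sw i I))
    split_ifs with h1 h2 h3
    · rfl
    · exact Nat.cast_zero
    · rfl
    · rw [Nat.cast_sub (h _)]

theorem resN_ok {M j y : ℕ} {N N' : Kd → ℕ} (h : ∀ τ, N τ ≠ 0 → τ ∈ kds M j)
    (h' : ∀ τ, N' τ ≠ 0 → τ ∈ kds M j) (τ : Kd) (hτ : resN M j N N' y τ ≠ 0) :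
    τ ∈ kds M (j + 1) := by
  rw [mem_kds, ok_succ]
  rcases τ with ⟨μ, I⟩ | ⟨i, I⟩
  · have hτ' : (if j ∈ I then N' (.ord μ (I.erase j)) else
      N (.ord μ I) - N' (.ord μ I) - if μ = M ∧ I = ∅ then y else 0) ≠ 0 := hτ
    by_cases hj : j ∈ I
    · rw [if_pos hj] at hτ'
      refine Or.inr (Or.inl ⟨_, mem_kds.1 (h' _ hτ'), ?_⟩)
      show Kd.ord μ (insert j (I.erase j)) = _
      rw [insert_erase hj]
    · rw [if_neg hj] at hτ'
      exact Or.inl (mem_kds.1 (h _ fun h0 => hτ' (by rw [h0]; omega)))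
  · have hτ' : (if i = j then (if I = ∅ then y else 0) else
      if j ∈ I then N' (.sw i (I.erase j)) else N (.sw i I) - N' (.sw i I)) ≠ 0 := hτ
    by_cases hi : i = j
    · rw [if_pos hi] at hτ'
      by_cases hI : I = ∅
      · rw [hi, hI]
        exact Or.inr (Or.inr rfl)
      · rw [if_neg hI] at hτ'
        exact absurd rfl hτ'
    · rw [if_neg hi] at hτ'
      by_cases hj : j ∈ I
      · rw [if_pos hj] at hτ'
        refine Or.inr (Or.inl ⟨_, mem_kds.1 (h' _ hτ'), ?_⟩)
        show Kd.sw i (insert j (I.erase j)) = _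
        rw [insert_erase hj]
      · rw [if_neg hj] at hτ'
        exact Or.inl (mem_kds.1 (h _ fun h0 => hτ' (by rw [h0]; omega)))

/-! ### The nominal densities of the next level -/

theorem nom_on {M c j : ℕ} {I : Finset ℕ} (hI : I ⊆ range j) :
    nom M c (j + 1) (insert j I) = nom M c j I := by
  unfold nom
  rw [card_insert_of_notMem (off hI)]
  have h1 : j + 1 - (I.card + 1) = j - I.card := by omega
  have h2 : M + (I.card + 1) - (j + 1) = M + I.card - j := by omega
  rw [h1, h2]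

theorem nom_off {M c j : ℕ} {I : Finset ℕ} (hj : j + 1 ≤ M) (hI : I ⊆ range j) :
    nom M c (j + 1) I = nom M c j I * ((M + I.card - (j + 1) + 1 : ℕ) : ℝ) * c := by
  unfold nom
  have h0 : I.card ≤ j := by
    have := card_le_card hI
    rwa [card_range] at this
  have h1 : j + 1 - I.card = (j - I.card) + 1 := by omega
  have h2 : M + I.card - j = (M + I.card - (j + 1)) + 1 := by omega
  rw [h1, h2, pow_succ, Nat.factorial_succ]
  have h3 : ((M + I.card - (j + 1)).factorial : ℝ) ≠ 0 :=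
    Nat.cast_ne_zero.2 (Nat.factorial_ne_zero _)
  have h4 : ((M + I.card - (j + 1) + 1 : ℕ) : ℝ) ≠ 0 :=
    Nat.cast_ne_zero.2 (Nat.succ_ne_zero _)
  have h5 : ((2 * M - 1).choose M : ℝ) ≠ 0 := by
    have : 0 < (2 * M - 1).choose M := Nat.choose_pos (by omega)
    exact_mod_cast this.ne'
  rw [Nat.cast_mul]
  field_simp

theorem nom_nonneg (M c j : ℕ) (I : Finset ℕ) : 0 ≤ nom M c j I := by
  unfold nom
  positivity

theorem nom_pos {M c j : ℕ} (hM : 1 ≤ M) (hc : 1 ≤ c) (I : Finset ℕ) : 0 < nom M c j I := by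
  unfold nom
  have h5 : 0 < (2 * M - 1).choose M := Nat.choose_pos (by omega)
  have h6 : 0 < (M + I.card - j).factorial := Nat.factorial_pos _
  positivity

theorem nom_le {M c j : ℕ} (hM : 1 ≤ M) (hc : 1 ≤ c) (I : Finset ℕ) :
    nom M c j I ≤ (c : ℝ) ^ j := by
  unfold nom
  have h5 : 0 < (2 * M - 1).choose M := Nat.choose_pos (by omega)
  have h6 : 0 < (M + I.card - j).factorial := Nat.factorial_pos _
  have h7 : (1 : ℝ) ≤ ((2 * M - 1).choose M : ℝ) * ((M + I.card - j).factorial : ℝ) := by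
    exact_mod_cast Nat.mul_pos h5 h6
  have hc' : (1 : ℝ) ≤ c := by exact_mod_cast hc
  calc (c : ℝ) ^ (j - I.card) / (((2 * M - 1).choose M : ℝ) * ((M + I.card - j).factorial : ℝ))
      ≤ (c : ℝ) ^ (j - I.card) := div_le_self (by positivity) h7
    _ ≤ (c : ℝ) ^ j := pow_le_pow_right₀ hc' (Nat.sub_le _ _)

end NumStep

end Pool.Agent.V7
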