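import Pool.Agent.V7.Num.StepB

/-!
# V7: the numbers of one step, the classes
-/

set_option autoImplicit false

namespace Pool.Agent.V7

open Finset Pool.Agent.V7.ST

namespace NumStep

/-! ### The floors -/

/-- the exponent of the number of the points of a kind on the level `l` -/
def dd (M l : ℕ) : Kd → ℕ
  | .ord μ I => 2 * M - μ + I.card - l
  | .sw _ I => M + I.card - l

/-- the number of the points of a kind which are specialised -/
noncomputable def Fl (M j n m : ℕ) (N : Kd → ℕ) (τ : Kd) : ℕ :=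
  ⌊((n : ℝ) / m) ^ (dd M j τ) * (N τ : ℝ)⌋₊

section

variable {M j n m : ℕ} {N : Kd → ℕ}

theorem Fl_le (τ : Kd) : (Fl M j n m N τ : ℝ) ≤ ((n : ℝ) / m) ^ (dd M j τ) * (N τ : ℝ) :=
  Nat.floor_le (by positivity)

theorem le_Fl (τ : Kd) : ((n : ℝ) / m) ^ (dd M j τ) * (N τ : ℝ) - 1 ≤ (Fl M j n m N τ : ℝ) := by
  have := (Nat.lt_floor_add_one (((n : ℝ) / m) ^ (dd M j τ) * (N τ : ℝ))).le
  unfold Fl
  linarith

theorem Fl_zero {τ : Kd} (h : N τ = 0) : Fl M j n m N τ = 0 := by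
  unfold Fl
  rw [h, Nat.cast_zero, mul_zero, Nat.floor_zero]

theorem Fl_le_self {c : ℕ} {δ : ℝ} (S : Set' c n m δ) (τ : Kd) : Fl M j n m N τ ≤ N τ := by
  have h1 := Fl_le (M := M) (j := j) (n := n) (m := m) (N := N) τ
  have h2 := mul_le_mul_of_nonneg_right (S.q_pow_le (dd M j τ)) (Nat.cast_nonneg (α := ℝ) (N τ))
  rw [one_mul] at h2
  exact_mod_cast h1.trans h2

theorem dd_M (I : Finset ℕ) : dd M j (.ord M I) = M + I.card - j := by
  show 2 * M - M + I.card - j = _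
  have : 2 * M - M = M := by omega
  rw [this]

theorem tot_Fl_le (I : Finset ℕ) :
    totR M j (fun τ => (Fl M j n m N τ : ℝ)) I ≤ ((n : ℝ) / m) ^ (M + I.card - j) * (tot M j N I : ℝ) := by
  rw [← totR_cast]
  unfold totR
  rw [mul_add, mul_sum]
  refine add_le_add ?_ (sum_le_sum fun i _ => ?_)
  · have := Fl_le (M := M) (j := j) (n := n) (m := m) (N := N) (.ord M I)
    rwa [dd_M] at this
  · exact Fl_le (M := M) (j := j) (n := n) (m := m) (N := N) (.sw i I)

theorem le_tot_Fl (I : Finset ℕ) :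
    ((n : ℝ) / m) ^ (M + I.card - j) * (tot M j N I : ℝ) - (j + 1 : ℕ) ≤
      totR M j (fun τ => (Fl M j n m N τ : ℝ)) I := by
  rw [← totR_cast]
  unfold totR
  rw [mul_add, mul_sum]
  have h1 := le_Fl (M := M) (j := j) (n := n) (m := m) (N := N) (.ord M I)
  rw [dd_M] at h1
  have h2 : ∑ i ∈ range j, (((n : ℝ) / m) ^ (M + I.card - j) * (N (.sw i I) : ℝ) - 1) ≤
      ∑ i ∈ range j, (Fl M j n m N (.sw i I) : ℝ) :=
    sum_le_sum fun i _ => le_Fl (M := M) (j := j) (n := n) (m := m) (N := N) (.sw i I)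
  rw [sum_sub_distrib, sum_const, card_range, nsmul_eq_mul, mul_one] at h2
  push_cast
  linarith

end

/-! ### Classes with real numbers -/

/-- the class of the level `l`, with real numbers and one free type -/
structure RCls (M c l m : ℕ) (ε : ℝ) (R : Kd → ℝ) (I₀ : Finset ℕ) : Prop where
  big : ∀ I, I ⊆ range l → I ≠ I₀ →
    |totR M l R I - nom M c l I * (m : ℝ) ^ (M + I.card - l)| ≤ ε * (m : ℝ) ^ (M + I.card - l)
  swp0 : ∀ i < l, ∀ I, I ⊆ range l → 0 ≤ R (.sw i I)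
  swp : ∀ i < l, ∀ I, I ⊆ range l → R (.sw i I) ≤
    (2 * ((2 * M - 1).choose M : ℝ) / c * nom M c l I + ε) * (m : ℝ) ^ (M + I.card - l)
  zer : ∀ i < l, ∀ I, I ⊆ range l → (.sw i I) ∉ kds M l → R (.sw i I) = 0
  sml0 : ∀ μ, 1 ≤ μ → μ < M → ∀ I, I ⊆ range l → 0 ≤ R (.ord μ I)
  sml : ∀ μ, 1 ≤ μ → μ < M → ∀ I, I ⊆ range l →
    R (.ord μ I) ≤ ε * (m : ℝ) ^ (2 * M - μ + I.card - l)

/-- the numbers of the specialised points -/
noncomputable def PP (M j n m : ℕ) (N : Kd → ℕ) (t : ℝ) (τ : Kd) : ℝ :=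
  if τ = .ord M (range j) then t else (Fl M j n m N τ : ℝ)

section

variable {M j n m : ℕ} {N : Kd → ℕ} {t : ℝ}

theorem PP_sw (i : ℕ) (I : Finset ℕ) : PP M j n m N t (.sw i I) = (Fl M j n m N (.sw i I) : ℝ) := by
  unfold PP
  rw [if_neg (by simp)]

theorem PP_ord {μ : ℕ} (hμ : μ < M) (I : Finset ℕ) :
    PP M j n m N t (.ord μ I) = (Fl M j n m N (.ord μ I) : ℝ) := by
  unfold PP
  rw [if_neg]
  rw [Kd.ord.injEq]
  exact fun h => absurd h.1 (by omega)

theorem PP_top : PP M j n m N t (.ord M (range j)) = t := by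
  unfold PP
  rw [if_pos rfl]

theorem PP_ne {I : Finset ℕ} (hI : I ≠ range j) :
    PP M j n m N t (.ord M I) = (Fl M j n m N (.ord M I) : ℝ) := by
  unfold PP
  rw [if_neg]
  rw [Kd.ord.injEq]
  exact fun h => hI h.2

theorem totR_PP {I : Finset ℕ} (hI : I ≠ range j) :
    totR M j (PP M j n m N t) I = totR M j (fun τ => (Fl M j n m N τ : ℝ)) I := by
  unfold totR
  rw [PP_ne hI, sum_congr rfl fun i _ => PP_sw i I]

theorem sw_range_notMem {i : ℕ} (hi : i < j) : (.sw i (range j)) ∉ kds M j := by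
  intro h
  have h1 := (mem_kds.1 h).2 (mem_range.2 hi)
  exact absurd (mem_Ico.1 h1).1 (by omega)

theorem totR_PP_top (h : ∀ τ, N τ ≠ 0 → τ ∈ kds M j) :
    totR M j (PP M j n m N t) (range j) = t := by
  unfold totR
  rw [PP_top, sum_eq_zero, add_zero]
  intro i hi
  rw [PP_sw, Fl_zero, Nat.cast_zero]
  by_contra h0
  exact sw_range_notMem (mem_range.1 hi) (h _ h0)

end

theorem card_le {j : ℕ} {I : Finset ℕ} (h : I ⊆ range j) : I.card ≤ j := by
  have := card_le_card h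
  rwa [card_range] at this

/-- the class of the specialised points -/
theorem P_cls {M c j n m : ℕ} {δ e t : ℝ} {N : Kd → ℕ} (S : Set' c n m δ) (hj : j + 2 ≤ M)
    (hc2 : 2 * (j + 1) ≤ c) (h : Cls0 M c j m (e + 1 / (m : ℝ)) N) :
    RCls M c j n (e + 1 / (n : ℝ)) (PP M j n m N t) (range j) := by
  have hn0 := S.n0
  have hm0 := S.m0
  have hmn : 1 / (m : ℝ) ≤ 1 / (n : ℝ) := one_div_le_one_div_of_le hn0 S.nm
  refine ⟨fun I hI hI' => ?_, fun i hi I hI => ?_, fun i hi I hI => ?_, fun i hi I hI h0 => ?_,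
    fun μ h1 h2 I hI => ?_, fun μ h1 h2 I hI => ?_⟩
  · rw [totR_PP hI']
    have hI2 := card_le hI
    have h1 := h.big I hI hI'
    have h2 := tot_Fl_le (M := M) (j := j) (n := n) (m := m) (N := N) I
    have h3 := le_tot_Fl (M := M) (j := j) (n := n) (m := m) (N := N) I
    obtain ⟨k, hk⟩ : ∃ k, M + I.card - j = k + 2 := ⟨M + I.card - j - 2, by omega⟩
    rw [hk] at h1 h2 h3 ⊢
    have hQ0 : 0 ≤ ((n : ℝ) / m) ^ (k + 2) := pow_nonneg S.q0 _
    have hqm := S.qm (k + 2)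
    obtain ⟨h1a, h1b⟩ := abs_le.1 h1
    have h4 := mul_le_mul_of_nonneg_left h1a hQ0
    have h5 := mul_le_mul_of_nonneg_left h1b hQ0
    have h6 : ((n : ℝ) / m) ^ (k + 2) * -((e + 1 / (m : ℝ)) * (m : ℝ) ^ (k + 2)) =
        - ((e + 1 / (m : ℝ)) * (n : ℝ) ^ (k + 2)) := by
      rw [← hqm]; ring
    have h7 : ((n : ℝ) / m) ^ (k + 2) * ((e + 1 / (m : ℝ)) * (m : ℝ) ^ (k + 2)) =
        ((e + 1 / (m : ℝ)) * (n : ℝ) ^ (k + 2)) := by
      rw [← hqm]; ring
    have h8 : ((n : ℝ) / m) ^ (k + 2) * ((tot M j N I : ℝ) - nom M c j I * (m : ℝ) ^ (k + 2)) =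
        ((n : ℝ) / m) ^ (k + 2) * (tot M j N I : ℝ) - nom M c j I * (n : ℝ) ^ (k + 2) := by
      rw [← hqm]; ring
    rw [h6, h8] at h4
    rw [h7, h8] at h5
    -- the radius
    have h9 : ((j + 1 : ℕ) : ℝ) ≤ (1 / (n : ℝ) - 1 / m) * (n : ℝ) ^ (k + 2) := by
      have e1 : (1 / (n : ℝ) - 1 / m) * (n : ℝ) ^ (k + 2) = (c * (n : ℝ) ^ (k + 1)) / m := by
        rw [S.mc]
        have : (n : ℝ) + c ≠ 0 := by rw [← S.mc]; exact hm0.ne'
        field_simp
        ring
      rw [e1, le_div_iff₀ hm0]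
      have e2 : (m : ℝ) ≤ 2 * n := by
        rw [S.mc]
        have : (c : ℝ) ≤ n := by exact_mod_cast S.hcn
        linarith
      have e3 : (n : ℝ) ≤ (n : ℝ) ^ (k + 1) := by
        calc (n : ℝ) = (n : ℝ) ^ 1 := (pow_one _).symm
          _ ≤ (n : ℝ) ^ (k + 1) := pow_le_pow_right₀ S.n1 (by omega)
      have e4 : (2 : ℝ) * ((j + 1 : ℕ) : ℝ) ≤ c := by exact_mod_cast hc2
      calc ((j + 1 : ℕ) : ℝ) * m ≤ ((j + 1 : ℕ) : ℝ) * (2 * n) := by gcongr
        _ = (2 * ((j + 1 : ℕ) : ℝ)) * n := by ring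
        _ ≤ c * (n : ℝ) ^ (k + 1) := by gcongr
    have h10 : (1 / (n : ℝ) - 1 / m) * (n : ℝ) ^ (k + 2) =
        (e + 1 / (n : ℝ)) * (n : ℝ) ^ (k + 2) - (e + 1 / (m : ℝ)) * (n : ℝ) ^ (k + 2) := by ring
    rw [h10] at h9
    have h11 : (0 : ℝ) ≤ ((j + 1 : ℕ) : ℝ) := Nat.cast_nonneg _
    rw [abs_le]
    constructor <;> linarith
  · rw [PP_sw]
    exact Nat.cast_nonneg _
  · rw [PP_sw]
    have h1 := h.swp i hi I hI
    have h2 := Fl_le (M := M) (j := j) (n := n) (m := m) (N := N) (.sw i I)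
    have h3 : dd M j (.sw i I) = M + I.card - j := rfl
    rw [h3] at h2
    have hQ0 : 0 ≤ ((n : ℝ) / m) ^ (M + I.card - j) := pow_nonneg S.q0 _
    have hqm := S.qm (M + I.card - j)
    refine h2.trans ((mul_le_mul_of_nonneg_left h1 hQ0).trans ?_)
    have h4 : ((n : ℝ) / m) ^ (M + I.card - j) * ((2 * ((2 * M - 1).choose M : ℝ) / c *
        nom M c j I + (e + 1 / (m : ℝ))) * (m : ℝ) ^ (M + I.card - j)) =
        (2 * ((2 * M - 1).choose M : ℝ) / c * nom M c j I + (e + 1 / (m : ℝ))) *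
          (n : ℝ) ^ (M + I.card - j) := by
      rw [← hqm]; ring
    rw [h4]
    gcongr
  · rw [PP_sw, Fl_zero, Nat.cast_zero]
    by_contra h1
    exact h0 (h.ok _ h1)
  · rw [PP_ord h2]
    exact Nat.cast_nonneg _
  · rw [PP_ord h2]
    have h3 := h.sml μ h1 h2 I hI
    have h4 := Fl_le (M := M) (j := j) (n := n) (m := m) (N := N) (.ord μ I)
    have h5 : dd M j (.ord μ I) = 2 * M - μ + I.card - j := rfl
    rw [h5] at h4
    have hQ0 : 0 ≤ ((n : ℝ) / m) ^ (2 * M - μ + I.card - j) := pow_nonneg S.q0 _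
    have hqm := S.qm (2 * M - μ + I.card - j)
    refine h4.trans ((mul_le_mul_of_nonneg_left h3 hQ0).trans ?_)
    have h6 : ((n : ℝ) / m) ^ (2 * M - μ + I.card - j) * ((e + 1 / (m : ℝ)) *
        (m : ℝ) ^ (2 * M - μ + I.card - j)) =
        (e + 1 / (m : ℝ)) * (n : ℝ) ^ (2 * M - μ + I.card - j) := by
      rw [← hqm]; ring
    rw [h6]
    gcongr

/-- the constant of the class of the residual -/
noncomputable def KK (M c j : ℕ) (κ : ℝ) : ℝ :=
  ((j + 1 : ℕ) : ℝ) + ((c : ℝ) ^ j + 1) * ((2 * M : ℕ) : ℝ) ^ 2 * (c : ℝ) ^ 2 +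
    ((c : ℝ) ^ j + 1) * ((2 * M : ℕ) : ℝ) * c + ((2 * M : ℕ) : ℝ) * c + 1 + κ

theorem KK_parts {M c j : ℕ} {κ : ℝ} (hκ : 0 ≤ κ) :
    ((j + 1 : ℕ) : ℝ) + ((c : ℝ) ^ j + 1) * ((2 * M : ℕ) : ℝ) ^ 2 * (c : ℝ) ^ 2 +
      ((2 * M : ℕ) : ℝ) * c ≤ KK M c j κ ∧
    ((j + 1 : ℕ) : ℝ) + ((c : ℝ) ^ j + 1) * ((2 * M : ℕ) : ℝ) * c + 1 ≤ KK M c j κ ∧
    ((2 * M : ℕ) : ℝ) * c + 1 ≤ KK M c j κ ∧
    κ + ((c : ℝ) ^ j + 1) * ((2 * M : ℕ) : ℝ) * c ≤ KK M c j κ ∧ κ ≤ KK M c j κ ∧
    1 ≤ KK M c j κ := by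
  unfold KK
  have h1 : (0 : ℝ) ≤ ((j + 1 : ℕ) : ℝ) := Nat.cast_nonneg _
  have h2 : (0 : ℝ) ≤ ((c : ℝ) ^ j + 1) * ((2 * M : ℕ) : ℝ) ^ 2 * (c : ℝ) ^ 2 := by positivity
  have h3 : (0 : ℝ) ≤ ((c : ℝ) ^ j + 1) * ((2 * M : ℕ) : ℝ) * c := by positivity
  have h4 : (0 : ℝ) ≤ ((2 * M : ℕ) : ℝ) * c := by positivity
  refine ⟨?_, ?_, ?_, ?_, ?_, ?_⟩ <;> linarith

theorem top_shift {M c j n m : ℕ} {δ κ t : ℝ} (S : Set' c n m δ) (hM : 1 ≤ M)
    (hκ : 0 ≤ κ) (ht : |t - nom M c j (range j) * (n : ℝ) ^ M| ≤ κ * δ * (n : ℝ) ^ M) :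
    |t - nom M c j (range j) * (m : ℝ) ^ M| ≤ KK M c j κ * δ * (m : ℝ) ^ M := by
  obtain ⟨k1, k2, k3, k4, k5, k6⟩ := KK_parts (M := M) (c := c) (j := j) hκ
  have hδ0 := S.δ0
  have hm0 := S.m0
  have h1 := S.q_ge M
  have h2 := S.qm M
  have h3 := nom_nonneg M c j (range j)
  have h4 := nom_le (j := j) hM S.hc (range j)
  set ν := nom M c j (range j) with hν
  set W : ℝ := (m : ℝ) ^ M with hW
  have hW0 : 0 < W := pow_pos hm0 M
  have h5 : (n : ℝ) ^ M ≤ W := by
    have h6 := mul_le_mul_of_nonneg_right (S.q_pow_le M) hW0.le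
    rw [one_mul, h2] at h6
    exact h6
  have h7 : W - (n : ℝ) ^ M ≤ M * (c / m) * W := by
    have h8 := mul_le_mul_of_nonneg_right h1 hW0.le
    rw [h2] at h8
    linarith
  have h9 : (M : ℝ) * (c / m) * W ≤ ((2 * M : ℕ) : ℝ) * c * δ * W := by
    have h10 : (c : ℝ) / m ≤ c * δ := by
      have : (c : ℝ) / m = c * (1 / m) := by ring
      rw [this]
      exact mul_le_mul_of_nonneg_left S.mδ S.c0.le
    have h11 : (M : ℝ) ≤ ((2 * M : ℕ) : ℝ) := Nat.cast_le.2 (by omega)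
    have h12 : (0 : ℝ) ≤ c / m := S.h0
    calc (M : ℝ) * (c / m) * W ≤ ((2 * M : ℕ) : ℝ) * (c * δ) * W := by gcongr
      _ = ((2 * M : ℕ) : ℝ) * c * δ * W := by ring
  have h13 : ν * (W - (n : ℝ) ^ M) ≤ ((c : ℝ) ^ j + 1) * (((2 * M : ℕ) : ℝ) * c * δ * W) := by
    have h14 : ν ≤ (c : ℝ) ^ j + 1 := by linarith
    have h15 : 0 ≤ W - (n : ℝ) ^ M := by linarith
    exact mul_le_mul h14 (h7.trans h9) h15 (by positivity)
  have h16 : 0 ≤ ν * (W - (n : ℝ) ^ M) := mul_nonneg h3 (by linarith)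
  have h17 : κ * δ * (n : ℝ) ^ M ≤ κ * δ * W := mul_le_mul_of_nonneg_left h5 (by positivity)
  have h18 : (κ + ((c : ℝ) ^ j + 1) * ((2 * M : ℕ) : ℝ) * c) * (δ * W) ≤ KK M c j κ * (δ * W) :=
    mul_le_mul_of_nonneg_right k4 (by positivity)
  obtain ⟨h19, h20⟩ := abs_le.1 ht
  rw [abs_le]
  constructor <;> nlinarith

/-- the class of the residual -/
theorem R_cls {M c j n m : ℕ} {δ κ t y : ℝ} {N : Kd → ℕ} (S : Set' c n m δ) (hj : j + 2 ≤ M)
    (hκ : 0 ≤ κ) (h : Cls0 M c j m δ N)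
    (ht : |t - nom M c j (range j) * (n : ℝ) ^ M| ≤ κ * δ * (n : ℝ) ^ M)
    (hy0 : 0 ≤ y)
    (hy : y ≤ (2 * ((2 * M - 1).choose M : ℝ) / c * nom M c (j + 1) ∅ + κ * δ) *
      (m : ℝ) ^ (M - (j + 1))) :
    RCls M c (j + 1) m (KK M c j κ * δ)
      (resR M j (fun τ => (N τ : ℝ)) (PP M j n m N t) y) (range j) := by
  have hM : 1 ≤ M := by omega
  have hc := S.hc
  have hδ0 := S.δ0
  obtain ⟨k1, k2, k3, k4, k5, k6⟩ := KK_parts (M := M) (c := c) (j := j) hκ
  have hC0 : (0 : ℝ) ≤ 2 * ((2 * M - 1).choose M : ℝ) / c := by positivity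
  have hm0 := S.m0
  have hKK0 : 0 ≤ KK M c j κ * δ := mul_nonneg (by linarith) hδ0.le
  have hδK : δ ≤ KK M c j κ * δ := by
    have := mul_le_mul_of_nonneg_right k6 hδ0.le
    linarith
  refine ⟨fun I hI hI' => ?_, fun i hi I hI => ?_, fun i hi I hI => ?_, fun i hi I hI h0 => ?_,
    fun μ h1 h2 I hI => ?_, fun μ h1 h2 I hI => ?_⟩
  · rcases cases_sub hI with ⟨hjI, hI2⟩ | ⟨I', hI2, rfl⟩
    · -- the difference
      rw [totR_off hjI, totR_PP hI', totR_cast, nom_off (by omega) hI2]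
      have hcI := card_le hI2
      obtain ⟨e, he⟩ : ∃ e, M + I.card - j = e + 1 := ⟨M + I.card - j - 1, by omega⟩
      have he' : M + I.card - (j + 1) = e := by omega
      rw [he']
      have h1 := h.big I hI2 hI'
      have h2 := tot_Fl_le (M := M) (j := j) (n := n) (m := m) (N := N) I
      have h3 := le_tot_Fl (M := M) (j := j) (n := n) (m := m) (N := N) I
      rw [he] at h1 h2 h3
      have h4 := S.diff (e := e) (E := 2 * M) (J := ((j + 1 : ℕ) : ℝ)) (ν₁ := (c : ℝ) ^ j)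
        (by omega) (by omega) (Nat.cast_nonneg _) (nom_nonneg M c j I) (nom_le hM hc I)
        (Nat.cast_nonneg _) h1 h3 h2
      refine h4.trans ?_
      gcongr
    · rw [totR_on (off hI2), nom_on hI2, card_insert_of_notMem (off hI2)]
      have hcI := card_le hI2
      have he : M + (I'.card + 1) - (j + 1) = M + I'.card - j := by omega
      rw [he]
      by_cases hI3 : I' = range j
      · subst hI3
        rw [totR_PP_top h.ok, card_range]
        have he2 : M + j - j = M := by omega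
        rw [he2]
        exact top_shift S hM hκ ht
      · rw [totR_PP hI3]
        have h1 := h.big I' hI2 hI3
        have h2 := tot_Fl_le (M := M) (j := j) (n := n) (m := m) (N := N) I'
        have h3 := le_tot_Fl (M := M) (j := j) (n := n) (m := m) (N := N) I'
        have h4 := S.same (d := M + I'.card - j) (E := 2 * M) (J := ((j + 1 : ℕ) : ℝ))
          (ν₁ := (c : ℝ) ^ j)
          (by omega) (by omega) (Nat.cast_nonneg _) (nom_nonneg M c j I') (nom_le hM hc I')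
          (Nat.cast_nonneg _) h1 h3 h2
        refine h4.trans ?_
        gcongr
  · by_cases hij : i = j
    · subst hij
      rw [resR_sw_self]
      split_ifs
      · exact hy0
      · exact le_rfl
    · have hi' : i < j := by omega
      rcases cases_sub hI with ⟨hjI, hI2⟩ | ⟨I', hI2, rfl⟩
      · rw [resR_sw_off hi' hjI, PP_sw]
        have := Fl_le_self (M := M) (j := j) (N := N) S (.sw i I)
        have : (Fl M j n m N (.sw i I) : ℝ) ≤ N (.sw i I) := by exact_mod_cast this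
        linarith
      · rw [resR_sw_on hi' (off hI2), PP_sw]
        exact Nat.cast_nonneg _
  · by_cases hij : i = j
    · subst hij
      rw [resR_sw_self]
      split_ifs with hI0
      · subst hI0
        rw [card_empty, add_zero]
        refine hy.trans ?_
        have h1 : κ * δ ≤ KK M c i κ * δ := mul_le_mul_of_nonneg_right k5 hδ0.le
        gcongr
      · have h2 := nom_nonneg M c (i + 1) I
        positivity
    · have hi' : i < j := by omega
      rcases cases_sub hI with ⟨hjI, hI2⟩ | ⟨I', hI2, rfl⟩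
      · rw [resR_sw_off hi' hjI, PP_sw]
        have hcI := card_le hI2
        obtain ⟨e, he⟩ : ∃ e, M + I.card - j = e + 1 := ⟨M + I.card - j - 1, by omega⟩
        have he' : M + I.card - (j + 1) = e := by omega
        rw [nom_off (by omega) hI2, he']
        have h1 := h.swp i hi' I hI2
        have h3 := le_Fl (M := M) (j := j) (n := n) (m := m) (N := N) (.sw i I)
        have h4 : dd M j (.sw i I) = M + I.card - j := rfl
        rw [h4] at h3
        rw [he] at h1 h3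
        have h5 := S.one_res (e := e) (E := 2 * M) (by omega) (by omega) (Nat.cast_nonneg _) h1 h3
        refine h5.trans ?_
        have h6 : 2 * ((2 * M - 1).choose M : ℝ) / c * nom M c j I * ((e + 1 : ℕ) : ℝ) * c =
          2 * ((2 * M - 1).choose M : ℝ) / c * (nom M c j I * ((e + 1 : ℕ) : ℝ) * c) := by ring
        rw [h6]
        gcongr
      · rw [resR_sw_on hi' (off hI2), PP_sw, nom_on hI2, card_insert_of_notMem (off hI2)]
        have hcI := card_le hI2
        have he : M + (I'.card + 1) - (j + 1) = M + I'.card - j := by omega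
        rw [he]
        have h1 := h.swp i hi' I' hI2
        have h2 := Fl_le (M := M) (j := j) (n := n) (m := m) (N := N) (.sw i I')
        have h4 : dd M j (.sw i I') = M + I'.card - j := rfl
        rw [h4] at h2
        have h5 := S.one_tr (Nat.cast_nonneg _) h1 h2
        refine h5.trans ?_
        gcongr
  · by_cases hij : i = j
    · subst hij
      rw [resR_sw_self, if_neg]
      rintro rfl
      exact h0 (mem_kds.2 (ok_succ.2 (Or.inr (Or.inr rfl))))
    · have hi' : i < j := by omega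
      rcases cases_sub hI with ⟨hjI, hI2⟩ | ⟨I', hI2, rfl⟩
      · rw [resR_sw_off hi' hjI, PP_sw]
        have h1 : N (.sw i I) = 0 := by
          by_contra h2
          exact h0 (mem_kds.2 (ok_succ.2 (Or.inl (mem_kds.1 (h.ok _ h2)))))
        rw [Fl_zero h1, h1, sub_self]
      · rw [resR_sw_on hi' (off hI2), PP_sw]
        have h1 : N (.sw i I') = 0 := by
          by_contra h2
          exact h0 (mem_kds.2 (ok_succ.2 (Or.inr (Or.inl ⟨_, mem_kds.1 (h.ok _ h2), rfl⟩))))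
        rw [Fl_zero h1, Nat.cast_zero]
  · rcases cases_sub hI with ⟨hjI, hI2⟩ | ⟨I', hI2, rfl⟩
    · rw [resR_ord_off hjI, PP_ord h2, if_neg (by omega), sub_zero]
      have := Fl_le_self (M := M) (j := j) (N := N) S (.ord μ I)
      have : (Fl M j n m N (.ord μ I) : ℝ) ≤ N (.ord μ I) := by exact_mod_cast this
      linarith
    · rw [resR_ord_on (off hI2), PP_ord h2]
      exact Nat.cast_nonneg _
  · rcases cases_sub hI with ⟨hjI, hI2⟩ | ⟨I', hI2, rfl⟩
    · rw [resR_ord_off hjI, PP_ord h2, if_neg (by omega), sub_zero]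
      have hcI := card_le hI2
      obtain ⟨e, he⟩ : ∃ e, 2 * M - μ + I.card - j = e + 1 := ⟨2 * M - μ + I.card - j - 1, by omega⟩
      have he' : 2 * M - μ + I.card - (j + 1) = e := by omega
      rw [he']
      have h3 := h.sml μ h1 h2 I hI2
      have h4 := le_Fl (M := M) (j := j) (n := n) (m := m) (N := N) (.ord μ I)
      have h5 : dd M j (.ord μ I) = 2 * M - μ + I.card - j := rfl
      rw [h5] at h4
      rw [he] at h3 h4
      have h3' : (N (.ord μ I) : ℝ) ≤ (0 + δ) * (m : ℝ) ^ (e + 1) := by rw [zero_add]; exact h3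
      have h6 := S.one_res (e := e) (E := 2 * M) (by omega) (by omega) (Nat.cast_nonneg _) h3' h4
      refine h6.trans ?_
      rw [zero_mul, zero_mul, zero_add]
      gcongr
    · rw [resR_ord_on (off hI2), PP_ord h2, card_insert_of_notMem (off hI2)]
      have hcI := card_le hI2
      have he : 2 * M - μ + (I'.card + 1) - (j + 1) = 2 * M - μ + I'.card - j := by omega
      rw [he]
      have h3 := h.sml μ h1 h2 I' hI2
      have h4 := Fl_le (M := M) (j := j) (n := n) (m := m) (N := N) (.ord μ I')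
      have h5 : dd M j (.ord μ I') = 2 * M - μ + I'.card - j := rfl
      rw [h5] at h4
      have h3' : (N (.ord μ I') : ℝ) ≤ (0 + δ) * (m : ℝ) ^ (2 * M - μ + I'.card - j) := by
        rw [zero_add]; exact h3
      have h6 := S.one_tr (Nat.cast_nonneg _) h3' h4
      refine h6.trans ?_
      rw [zero_add]
      gcongr

end NumStep

end Pool.Agent.V7
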